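import Pool.Agent.N782.GN.All2
import Pool.Agent.N782.GN.FinE

/-!
# Primes `l² + m²` with `m` in a class modulo `q`, for almost all `l` in a class modulo `q`

From the averages of project GN (`Pool.Agent.N782.GN.c_mainx`) to almost all `l`, uniformly in the length of the sum.
-/

set_option autoImplicit false

namespace Pool.Agent.L7h18.SD

open Finset Filter Topology
open Pool.Agent.N782.GN

/-- half of the number of the signs with `± m ≡ m₀` modulo `q` -/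
noncomputable def cz (q : ℕ) (m0 m : ℤ) : ℝ :=
  (if (q : ℤ) ∣ m - m0 then 1 / 2 else 0) + (if (q : ℤ) ∣ -m - m0 then 1 / 2 else 0)

theorem cz_bd (q : ℕ) (m0 m : ℤ) : 0 ≤ cz q m0 m ∧ cz q m0 m ≤ 1 := by
  unfold cz
  split_ifs <;> norm_num

/-- the same for natural numbers -/
noncomputable def cf (q : ℕ) (m0 : ℤ) (m : ℕ) : ℝ := cz q m0 (m : ℤ)

theorem cf_bd (q : ℕ) (m0 : ℤ) (m : ℕ) : 0 ≤ cf q m0 m ∧ cf q m0 m ≤ 2 := by
  have := cz_bd q m0 m
  unfold cf
  exact ⟨this.1, by linarith [this.2]⟩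

/-- sums over symmetric intervals -/
theorem sum_symm (N : ℤ) (hN : 0 ≤ N) (h : ℤ → ℝ) :
    ∑ m ∈ Icc (-N) N, h m = h 0 + ∑ m ∈ Icc 1 N, (h m + h (-m)) := by
  have e1 : Icc (-N) N = (Icc 1 N) ∪ ({0} ∪ (Icc 1 N).image (fun m => -m)) := by
    ext m
    simp only [mem_Icc, mem_union, mem_singleton, mem_image]
    constructor
    · rintro ⟨h1, h2⟩
      rcases lt_trichotomy m 0 with h3 | h3 | h3
      · exact Or.inr (Or.inr ⟨-m, ⟨by omega, by omega⟩, by omega⟩)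
      · exact Or.inr (Or.inl h3)
      · exact Or.inl ⟨by omega, h2⟩
    · rintro (⟨h1, h2⟩ | h1 | ⟨k, ⟨h1, h2⟩, h3⟩)
      · omega
      · omega
      · omega
  have d1 : Disjoint ({0} : Finset ℤ) ((Icc 1 N).image (fun m => -m)) := by
    rw [disjoint_left]
    intro m hm hm'
    rw [mem_singleton] at hm
    rw [mem_image] at hm'
    obtain ⟨k, hk, hk'⟩ := hm'
    rw [mem_Icc] at hk
    omega
  have d2 : Disjoint (Icc 1 N) (({0} : Finset ℤ) ∪ (Icc 1 N).image (fun m => -m)) := by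
    rw [disjoint_left]
    intro m hm hm'
    rw [mem_union, mem_singleton, mem_image] at hm'
    rw [mem_Icc] at hm
    rcases hm' with h1 | ⟨k, hk, hk'⟩
    · omega
    · rw [mem_Icc] at hk
      omega
  rw [e1, sum_union d2, sum_union d1, sum_singleton, sum_image (by intro a _ b _ hab; simpa using hab),
    sum_add_distrib]
  ring

/-- the sum of `Λ(l² + m²)` with the coefficients `cz` -/
noncomputable def fx (q : ℕ) (m0 l : ℤ) (y : ℝ) : ℝ :=
  ∑ m ∈ Icc 1 ⌊y⌋, cz q m0 m * ArithmeticFunction.vonMangoldt (l ^ 2 + m ^ 2).natAbs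

theorem fx_mono (q : ℕ) (m0 l : ℤ) (y z : ℝ) (h : y ≤ z) : fx q m0 l y ≤ fx q m0 l z := by
  unfold fx
  apply sum_le_sum_of_subset_of_nonneg
  · exact Icc_subset_Icc le_rfl (Int.floor_le_floor h)
  · intro m _ _
    exact mul_nonneg (cz_bd q m0 m).1 ArithmeticFunction.vonMangoldt_nonneg

theorem fx_le_f1 (q : ℕ) (m0 l : ℤ) (y : ℝ) : fx q m0 l y ≤ f1 l y := by
  unfold fx f1
  apply sum_le_sum
  intro m _
  have h1 := cz_bd q m0 m
  have h2 : 0 ≤ ArithmeticFunction.vonMangoldt (l ^ 2 + m ^ 2).natAbs := ArithmeticFunction.vonMangoldt_nonneg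
  nlinarith [h1.1, h1.2]

theorem fx_nat (q : ℕ) (m0 : ℤ) (l t : ℕ) : fx q m0 l t = TT (cf q m0) l t := by
  unfold fx TT
  rw [Int.floor_natCast, sum_int_nat]
  refine sum_congr rfl fun m _ => ?_
  congr 1

theorem sum_sym_fx (q : ℕ) (m0 l : ℤ) (M : ℝ) (hM : 0 ≤ M) :
    ∑ m ∈ (Icc ⌈-M⌉ ⌊M⌋).filter (fun m => (q : ℤ) ∣ m - m0), ArithmeticFunction.vonMangoldt (l ^ 2 + m ^ 2).natAbs =
      2 * fx q m0 l M + (if (q : ℤ) ∣ 0 - m0 then ArithmeticFunction.vonMangoldt (l ^ 2).natAbs else 0) := by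
  have h0 : ⌈-M⌉ = -⌊M⌋ := Int.ceil_neg
  rw [sum_filter, h0, sum_symm _ (Int.floor_nonneg.2 hM)]
  unfold fx
  rw [mul_sum, add_comm]
  congr 1
  · refine sum_congr rfl fun m _ => ?_
    have h1 : (-m) ^ 2 = m ^ 2 := by ring
    rw [h1]
    unfold cz
    split_ifs <;> ring
  · rw [zero_pow two_ne_zero, add_zero]

/-- the expected mean value -/
noncomputable def sx (q : ℕ) (l : ℤ) : ℝ := gq q l * SS l / q

theorem prod_pos' (S : Finset ℕ) (hS : ∀ p ∈ S, 3 ≤ p) :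
    0 < ∏ p ∈ S, (1 - ((ZMod.χ₄ (p : ZMod 4) : ℤ) : ℝ) / ((p : ℝ) - 1)) := by
  apply prod_pos
  intro p hp
  have h3 : (3 : ℝ) ≤ p := by exact_mod_cast hS p hp
  have h1 : ((ZMod.χ₄ (p : ZMod 4) : ℤ) : ℝ) ≤ 1 := by
    have : ∀ x : ZMod 4, ZMod.χ₄ x ≤ 1 := by decide
    exact_mod_cast this _
  have h2 : ((ZMod.χ₄ (p : ZMod 4) : ℤ) : ℝ) / ((p : ℝ) - 1) ≤ 1 / 2 := by
    rw [div_le_iff₀ (by linarith)]
    linarith
  linarith

theorem gq_pos (q : ℕ) (hq : 1 ≤ q) (l : ℤ) : 0 < gq q l := by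
  unfold gq
  have h1 : (0 : ℝ) < q := by exact_mod_cast hq
  have h2 : (0 : ℝ) < (Nat.totient q : ℝ) := by exact_mod_cast Nat.totient_pos.2 hq
  apply div_pos (div_pos h1 h2)
  apply prod_pos'
  intro p hp
  rw [mem_filter] at hp
  have h3 := (Nat.prime_of_mem_primeFactors hp.1).two_le
  have h4 := hp.2.1
  omega

theorem sx_pos (q : ℕ) (hq : 1 ≤ q) (l : ℤ) (hl : l ≠ 0) : 0 < sx q l := by
  unfold sx
  have h1 : (0 : ℝ) < q := by exact_mod_cast hq
  exact div_pos (mul_pos (gq_pos q hq l) (c_ssl l hl).2) h1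

/-- powers of the logarithm -/
theorem log_pow_le (A : ℕ) : ∃ C : ℝ, 0 < C ∧ ∀ M : ℝ, 1 ≤ M → Real.log M ^ (A + 1) ≤ C * M := by
  refine ⟨((A : ℝ) + 1) ^ (A + 1), by positivity, fun M hM => ?_⟩
  have h1 := Real.log_le_rpow_div (show 0 ≤ M by linarith) (show (0 : ℝ) < 1 / ((A : ℝ) + 1) by positivity)
  have h2 : M ^ (1 / ((A : ℝ) + 1)) / (1 / ((A : ℝ) + 1)) = ((A : ℝ) + 1) * M ^ (1 / ((A : ℝ) + 1)) := by
    field_simp
  rw [h2] at h1
  have h3 : 0 ≤ Real.log M := Real.log_nonneg hM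
  calc Real.log M ^ (A + 1) ≤ (((A : ℝ) + 1) * M ^ (1 / ((A : ℝ) + 1))) ^ (A + 1) := pow_le_pow_left₀ h3 h1 _
    _ = ((A : ℝ) + 1) ^ (A + 1) * M := by
      rw [mul_pow]
      congr 1
      rw [← Real.rpow_natCast (M ^ (1 / ((A : ℝ) + 1))) (A + 1), ← Real.rpow_mul (by linarith)]
      have h4 : 1 / ((A : ℝ) + 1) * ((A + 1 : ℕ) : ℝ) = 1 := by
        push_cast
        field_simp
      rw [h4, Real.rpow_one]

theorem avgx (q : ℕ) (hq : 1 ≤ q) (l0 m0 : ℤ) (hc : IsCoprime (⟨l0, m0⟩ : ZI) ((q : ℕ) : ZI)) :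
    Avg (fun L => (Icc 1 ⌊L⌋).filter (fun l => (q : ℤ) ∣ l - l0)) (fx q m0) (sx q) where
  mono := fx_mono q m0
  s0 := fun L l hl => by
    rw [mem_filter, mem_box] at hl
    exact (sx_pos q hq l (by omega)).le
  triv := ⟨3, by norm_num, fun L M hM3 hLM l hl => by
    rw [mem_filter, mem_box] at hl
    exact (fx_le_f1 q m0 l M).trans (f1_triv l M hM3 hl.1.1 (hl.1.2.trans hLM))⟩
  avg := fun ε A hε => by
    obtain ⟨C, hC, h⟩ := c_mainx ε A q hε hq
    obtain ⟨C1, hC1, h1⟩ := log_pow_le A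
    refine ⟨C + 2 * C1, by positivity, fun M L hM3 hL1 hL2 => ?_⟩
    have hM0 : 0 < M := by linarith
    have hM1 : 1 ≤ M := by linarith
    have hlog : 0 < Real.log M := Real.log_pos (by linarith)
    have hL0 : 0 ≤ L := (Real.rpow_nonneg hM0.le _).trans hL1
    have hLM : L ≤ M := hL2.trans (by
      calc M ^ (1 - ε) ≤ M ^ (1 : ℝ) := Real.rpow_le_rpow_of_exponent_le hM1 (by linarith)
        _ = M := Real.rpow_one M)
    have hq0 : (0 : ℝ) < q := by exact_mod_cast hq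
    have key := h M L l0 m0 hM3 hc hL1 hL2
    have e1 : ∀ l ∈ (Icc 1 ⌊L⌋).filter (fun l => (q : ℤ) ∣ l - l0), |fx q m0 l M - M * sx q l| ≤
        |∑ m ∈ (Icc ⌈-M⌉ ⌊M⌋).filter (fun m => (q : ℤ) ∣ m - m0),
          ArithmeticFunction.vonMangoldt (l ^ 2 + m ^ 2).natAbs - 2 * M / q * (gq q l * SS l)| + 2 * Real.log M := by
      intro l hl
      rw [mem_filter, mem_box] at hl
      rw [sum_sym_fx q m0 l M hM0.le]
      set v : ℝ := if (q : ℤ) ∣ 0 - m0 then ArithmeticFunction.vonMangoldt (l ^ 2).natAbs else 0 with hv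
      have hl1 : (1 : ℝ) ≤ l := by exact_mod_cast hl.1.1
      have hv0 : 0 ≤ v := by
        rw [hv]
        split_ifs
        · exact ArithmeticFunction.vonMangoldt_nonneg
        · exact le_rfl
      have hv1 : v ≤ 2 * Real.log M := by
        rw [hv]
        split_ifs
        · refine ArithmeticFunction.vonMangoldt_le_log.trans ?_
          have h2 : (((l ^ 2).natAbs : ℕ) : ℝ) = (l : ℝ) ^ 2 := by
            rw [Nat.cast_natAbs]
            push_cast
            rw [abs_of_nonneg (by positivity)]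
          rw [h2, Real.log_pow]
          push_cast
          have := Real.log_le_log (by linarith) (hl.1.2.trans hLM)
          linarith
        · positivity
      have h3 : 2 * fx q m0 l M + v - 2 * M / q * (gq q l * SS l) = 2 * (fx q m0 l M - M * sx q l) + v := by
        unfold sx
        field_simp
        ring
      rw [h3]
      set x := fx q m0 l M - M * sx q l
      have h4 := abs_sub_abs_le_abs_sub (2 * x) (-v)
      rw [abs_neg, abs_of_nonneg hv0, abs_mul, abs_of_pos (show (0 : ℝ) < 2 by norm_num), sub_neg_eq_add] at h4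
      have h5 := abs_nonneg x
      linarith
    refine (sum_le_sum e1).trans ?_
    rw [sum_add_distrib, sum_const, nsmul_eq_mul]
    have e2 : (((Icc 1 ⌊L⌋).filter (fun l => (q : ℤ) ∣ l - l0)).card : ℝ) ≤ L := by
      have h2 : ((Icc 1 ⌊L⌋).filter (fun l => (q : ℤ) ∣ l - l0)).card ≤ (Icc 1 ⌊L⌋).card := card_filter_le _ _
      have h3 : ((Icc 1 ⌊L⌋).card : ℝ) ≤ L := by
        rw [Int.card_Icc, show ⌊L⌋ + 1 - 1 = ⌊L⌋ by ring]
        have h5 : ((⌊L⌋.toNat : ℕ) : ℤ) = ⌊L⌋ := Int.toNat_of_nonneg (Int.floor_nonneg.2 hL0)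
        have h6 : ((⌊L⌋.toNat : ℕ) : ℝ) = (⌊L⌋ : ℝ) := by exact_mod_cast h5
        rw [h6]
        exact Int.floor_le L
      exact le_trans (by exact_mod_cast h2) h3
    have e3 : (((Icc 1 ⌊L⌋).filter (fun l => (q : ℤ) ∣ l - l0)).card : ℝ) * (2 * Real.log M) ≤
        2 * C1 * L * M / Real.log M ^ A := by
      rw [le_div_iff₀ (by positivity)]
      calc (((Icc 1 ⌊L⌋).filter (fun l => (q : ℤ) ∣ l - l0)).card : ℝ) * (2 * Real.log M) * Real.log M ^ A
          ≤ L * (2 * Real.log M) * Real.log M ^ A := by gcongr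
        _ = 2 * L * Real.log M ^ (A + 1) := by ring
        _ ≤ 2 * L * (C1 * M) := mul_le_mul_of_nonneg_left (h1 M hM1) (by positivity)
        _ = 2 * C1 * L * M := by ring
    calc _ ≤ C * L * M / Real.log M ^ A + 2 * C1 * L * M / Real.log M ^ A := add_le_add key e3
      _ = (C + 2 * C1) * L * M / Real.log M ^ A := by ring

open Classical in
/-- **for almost all `l ≤ L` in a class** -/
theorem class_aa (q : ℕ) (hq : 1 ≤ q) (l0 m0 : ℤ) (hc : IsCoprime (⟨l0, m0⟩ : ZI) ((q : ℕ) : ZI)) (ε : ℝ) (A : ℕ)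
    (hε : 0 < ε) (hε4 : ε ≤ 1 / 4) : ∃ L₀ : ℝ, 3 ≤ L₀ ∧ ∀ L : ℝ, L₀ ≤ L →
    (((Icc 1 ⌊L⌋₊).filter (fun l : ℕ => (q : ℤ) ∣ (l : ℤ) - l0 ∧ ¬ (sx q l ≤ 7 * Real.log L ∧
      ∀ u : ℝ, L ^ (1 + ε) ≤ u → u ≤ L ^ (3 / 2 - ε) →
      |PP (cf q m0) l ⌊u⌋₊ - sx q l * ∫ t in (2 : ℝ)..u, 1 / (2 * Real.log t)| ≤ u / (Real.log L) ^ A))).card : ℝ) ≤
      L / (Real.log L) ^ A := by
  obtain ⟨L₁, h1⟩ := (avgx q hq l0 m0 hc).grid (ε / 2) (A + 1) (by positivity)
  obtain ⟨L₂, hL₂, h2⟩ := conv ε A 7 hε (by norm_num)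
  obtain ⟨L₃, h3⟩ := eventually_atTop.1 (ev_rpow_ge (ε / 2) 2 (by positivity))
  refine ⟨max (max L₁ L₂) L₃, le_trans hL₂ (le_trans (le_max_right _ _) (le_max_left _ _)), fun L hL => ?_⟩
  have hLL1 : L₁ ≤ L := (le_trans (le_max_left _ _) (le_max_left _ _)).trans hL
  have hLL2 : L₂ ≤ L := (le_trans (le_max_right _ _) (le_max_left _ _)).trans hL
  have hLL3 : L₃ ≤ L := (le_max_right _ _).trans hL
  have hL3 : 3 ≤ L := hL₂.trans hLL2
  have hL0 : 0 < L := by linarith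
  have hL1 : 1 ≤ L := by linarith
  have hlog : 1 ≤ Real.log L := by
    rw [Real.le_log_iff_exp_le hL0]
    have := Real.exp_one_lt_d9
    linarith
  have hq := h3 L hLL3
  have key := h1 L hLL1
  have hsub : (((Icc 1 ⌊L⌋₊).filter (fun l : ℕ => (q : ℤ) ∣ (l : ℤ) - l0 ∧ ¬ (sx q l ≤ 7 * Real.log L ∧
      ∀ u : ℝ, L ^ (1 + ε) ≤ u → u ≤ L ^ (3 / 2 - ε) →
      |PP (cf q m0) l ⌊u⌋₊ - sx q l * ∫ t in (2 : ℝ)..u, 1 / (2 * Real.log t)| ≤ u / (Real.log L) ^ A))).card : ℝ) ≤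
      ((((fun L : ℝ => (Icc (1 : ℤ) ⌊L⌋).filter (fun l => (q : ℤ) ∣ l - l0)) L).filter (fun l => ¬ ∀ u : ℝ,
        L ^ (1 + ε / 2) ≤ u → u ≤ L ^ (3 / 2 - ε / 2) →
        |fx q m0 l u - u * sx q l| ≤ u / (Real.log L) ^ (A + 1))).card : ℝ) := by
    rw [Nat.cast_le]
    apply card_le_card_of_injOn (fun l : ℕ => (l : ℤ))
    · intro l hl
      rw [mem_coe, mem_filter, mem_Icc] at hl
      obtain ⟨⟨hl1, hlL⟩, hlq, hl⟩ := hl
      rw [Nat.le_floor_iff hL0.le] at hlL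
      simp only [mem_coe, mem_filter]
      rw [mem_box]
      refine ⟨⟨⟨by exact_mod_cast hl1, by exact_mod_cast hlL⟩, hlq⟩, ?_⟩
      intro hg
      apply hl
      -- the bound for the singular series
      have hSS := sx_pos q (by omega) (l : ℤ) (by omega)
      set t0 : ℝ := L ^ (1 + ε / 2) with ht0
      have hLt0 : L ≤ t0 := by
        calc L = L ^ (1 : ℝ) := (Real.rpow_one L).symm
          _ ≤ _ := Real.rpow_le_rpow_of_exponent_le hL1 (by linarith)
      have ht03 : 3 ≤ t0 := by linarith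
      have hK : sx q (l : ℤ) ≤ 7 * Real.log L := by
        have e1 := hg t0 le_rfl (Real.rpow_le_rpow_of_exponent_le hL1 (by linarith))
        have e2 := (fx_le_f1 q m0 (l : ℤ) t0).trans (f1_triv (l : ℤ) t0 ht03 (by omega) (by
          push_cast
          linarith))
        have e3 : Real.log t0 ≤ 2 * Real.log L := by
          rw [ht0, Real.log_rpow hL0]
          nlinarith
        have e4 : t0 / (Real.log L) ^ (A + 1) ≤ t0 := div_le_self (by linarith) (one_le_pow₀ hlog)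
        rw [abs_le] at e1
        have e5 : t0 * sx q (l : ℤ) ≤ t0 * (7 * Real.log L) := by
          have e6 : 3 * t0 * Real.log t0 ≤ 3 * t0 * (2 * Real.log L) := mul_le_mul_of_nonneg_left e3 (by linarith)
          have e7 : t0 ≤ t0 * Real.log L := by nlinarith
          nlinarith [e1.1]
        exact le_of_mul_le_mul_left e5 (by linarith)
      exact ⟨hK, h2 L hLL2 l (sx q (l : ℤ)) (cf q m0) hl1 hlL hSS.le hK (cf_bd q m0) (fun t ht1 ht2 => by
        have e1 := hg t ht1 (ht2.trans (Real.rpow_le_rpow_of_exponent_le hL1 (by linarith)))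
        rw [fx_nat] at e1
        exact e1)⟩
    · intro a _ b _ h
      simpa using h
  refine hsub.trans (key.trans ?_)
  apply div_le_div_of_nonneg_left hL0.le (by positivity)
  exact pow_le_pow_right₀ hlog (by omega)

end Pool.Agent.L7h18.SD
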