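import Pool.Agent.L7h18.SDa

/-!
# Primes `l² + m²`: windows
-/

set_option autoImplicit false

namespace Pool.Agent.L7h18.SD

open Finset Filter Topology
open Pool.Agent.N782.GN

/-- the number of the elements of a class in an interval -/
theorem class_count (q : ℕ) (hq : 1 ≤ q) (v : ℤ) (n : ℕ) :
    |(((Icc (1 : ℤ) n).filter (fun m => (q : ℤ) ∣ m - v)).card : ℝ) - n / q| ≤ 1 := by
  have hq0 : (0 : ℤ) < q := by exact_mod_cast hq
  have hqQ : (0 : ℚ) < ((q : ℤ) : ℚ) := by exact_mod_cast hq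
  have hqR : (0 : ℝ) < q := by exact_mod_cast hq
  have e1 : (Icc (1 : ℤ) n).filter (fun m => (q : ℤ) ∣ m - v) =
      (Ioc (0 : ℤ) n).filter (fun m => m ≡ v [ZMOD (q : ℤ)]) := by
    ext m
    simp only [mem_filter, mem_Icc, mem_Ioc]
    constructor
    · rintro ⟨⟨h1, h2⟩, h3⟩
      exact ⟨⟨by omega, h2⟩, (Int.modEq_iff_dvd.2 h3).symm⟩
    · rintro ⟨⟨h1, h2⟩, h3⟩
      exact ⟨⟨by omega, h2⟩, Int.modEq_iff_dvd.1 h3.symm⟩
  have e2 := Int.Ioc_filter_modEq_card (0 : ℤ) (n : ℤ) hq0 v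
  rw [e1]
  set c := ((Ioc (0 : ℤ) n).filter (fun m => m ≡ v [ZMOD (q : ℤ)])).card
  set a : ℤ := ⌊(((n : ℤ) : ℚ) - (v : ℚ)) / ((q : ℤ) : ℚ)⌋ with ha
  set b : ℤ := ⌊(((0 : ℤ) : ℚ) - (v : ℚ)) / ((q : ℤ) : ℚ)⌋ with hb
  have a1 : a * q ≤ n - v := by
    have h := Int.floor_le ((((n : ℤ) : ℚ) - (v : ℚ)) / ((q : ℤ) : ℚ))
    rw [← ha, le_div_iff₀ hqQ] at h
    exact_mod_cast h
  have a2 : n - v < a * q + q := by
    have h := Int.lt_floor_add_one ((((n : ℤ) : ℚ) - (v : ℚ)) / ((q : ℤ) : ℚ))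
    rw [← ha, div_lt_iff₀ hqQ] at h
    have h' : (n : ℤ) - v < (a + 1) * q := by exact_mod_cast h
    linarith
  have b1 : b * q ≤ 0 - v := by
    have h := Int.floor_le ((((0 : ℤ) : ℚ) - (v : ℚ)) / ((q : ℤ) : ℚ))
    rw [← hb, le_div_iff₀ hqQ] at h
    exact_mod_cast h
  have b2 : 0 - v < b * q + q := by
    have h := Int.lt_floor_add_one ((((0 : ℤ) : ℚ) - (v : ℚ)) / ((q : ℤ) : ℚ))
    rw [← hb, div_lt_iff₀ hqQ] at h
    have h' : (0 : ℤ) - v < (b + 1) * q := by exact_mod_cast h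
    linarith
  have hc0 : (0 : ℤ) ≤ a - b := by
    by_contra hneg
    push Not at hneg
    have h1 : a - b ≤ -1 := by omega
    have h2 : (a - b) * q ≤ -1 * q := mul_le_mul_of_nonneg_right h1 hq0.le
    have h3 : (0 : ℤ) ≤ n := Int.natCast_nonneg n
    linarith
  have hc : (c : ℤ) = a - b := by
    rw [e2]
    exact max_eq_left hc0
  have hcR : (c : ℝ) = ((a - b : ℤ) : ℝ) := by
    rw [← hc]
    simp
  rw [hcR]
  have c1 : ((a - b : ℤ) : ℝ) * q ≤ n + q := by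
    have : (a - b) * q ≤ n + q := by linarith
    exact_mod_cast this
  have c2 : (n : ℝ) - q ≤ ((a - b : ℤ) : ℝ) * q := by
    have : (n : ℤ) - q ≤ (a - b) * q := by linarith
    exact_mod_cast this
  rw [abs_le]
  constructor
  · have : (n : ℝ) / q ≤ ((a - b : ℤ) : ℝ) + 1 := by
      rw [div_le_iff₀ hqR]
      linarith
    linarith
  · have : ((a - b : ℤ) : ℝ) - 1 ≤ (n : ℝ) / q := by
      rw [le_div_iff₀ hqR]
      linarith
    linarith

theorem cf_sum (q : ℕ) (hq : 1 ≤ q) (m0 : ℤ) (n : ℕ) : |(n : ℝ) - q * ∑ m ∈ Icc 1 n, cf q m0 m| ≤ q := by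
  have hqR : (0 : ℝ) < q := by exact_mod_cast hq
  have e1 : ∑ m ∈ Icc 1 n, cf q m0 m = 1 / 2 * (((Icc (1 : ℤ) n).filter (fun m => (q : ℤ) ∣ m - m0)).card : ℝ) +
      1 / 2 * (((Icc (1 : ℤ) n).filter (fun m => (q : ℤ) ∣ m - (-m0))).card : ℝ) := by
    unfold cf
    rw [← sum_int_nat (fun m => cz q m0 m)]
    unfold cz
    rw [sum_add_distrib, ← sum_filter, ← sum_filter, sum_const, sum_const, nsmul_eq_mul, nsmul_eq_mul]
    have e2 : (Icc (1 : ℤ) n).filter (fun m => (q : ℤ) ∣ -m - m0) =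
        (Icc (1 : ℤ) n).filter (fun m => (q : ℤ) ∣ m - (-m0)) := by
      apply filter_congr
      intro m _
      rw [← dvd_neg, show -(-m - m0) = m - -m0 by ring]
    rw [e2]
    ring
  rw [e1]
  have h1 := class_count q hq m0 n
  have h2 := class_count q hq (-m0) n
  rw [abs_le] at h1 h2 ⊢
  have h3 : (q : ℝ) * (n / q) = n := by field_simp
  constructor
  · have := mul_le_mul_of_nonneg_left (add_le_add h1.2 h2.2) hqR.le
    nlinarith
  · have := mul_le_mul_of_nonneg_left (add_le_add h1.1 h2.1) hqR.le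
    nlinarith

/-- the weight -/
noncomputable def wt (l m : ℕ) : ℝ := 1 / Real.log ((l ^ 2 + m ^ 2 : ℕ) : ℝ)

theorem wt_bd {l m : ℕ} (hl : 1 ≤ l) (hm : 1 ≤ m) : 0 ≤ wt l m ∧ wt l m ≤ 2 := by
  unfold wt
  have h1 : (2 : ℝ) ≤ ((l ^ 2 + m ^ 2 : ℕ) : ℝ) := by
    have : 2 ≤ l ^ 2 + m ^ 2 := by nlinarith
    exact_mod_cast this
  have h2 : 1 / 2 ≤ Real.log ((l ^ 2 + m ^ 2 : ℕ) : ℝ) := by
    have := Real.log_le_log (by norm_num) h1
    have := Real.log_two_gt_d9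
    linarith
  constructor
  · positivity
  · rw [div_le_iff₀ (by linarith)]
    linarith

theorem int_class (q : ℕ) (hq : 1 ≤ q) (m0 : ℤ) (l N0 N : ℕ) (hl : 1 ≤ l) (h0 : 3 ≤ N0) (hN : N0 ≤ N) :
    |(∫ t in (2 : ℝ)..N, 1 / (2 * Real.log t)) - q * ∑ m ∈ Icc 1 N, cf q m0 m * wt l m| ≤
      (N0 + 2) + N * ((l : ℝ) / N0) ^ 2 + 2 * q + 2 * q * N0 := by
  have hN0r : (3 : ℝ) ≤ N0 := by exact_mod_cast h0
  have hNr : (N0 : ℝ) ≤ N := by exact_mod_cast hN
  have s1 := sum_int N0 N (N : ℝ) h0 hN le_rfl (by linarith)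
  have s2 : |∑ m ∈ Ioc N0 N, 1 / (2 * Real.log m) - ∑ m ∈ Ioc N0 N, wt l m| ≤ N * ((l : ℝ) / N0) ^ 2 := by
    rw [← sum_sub_distrib]
    refine (abs_sum_le_sum_abs _ _).trans ?_
    have h1 : ∀ m ∈ Ioc N0 N, |1 / (2 * Real.log m) - wt l m| ≤ ((l : ℝ) / N0) ^ 2 := by
      intro m hm
      rw [mem_Ioc] at hm
      have h2 := weight_diff hl (show 3 ≤ m by omega)
      unfold wt
      rw [abs_of_nonneg h2.1]
      refine h2.2.trans ?_
      have h3 : (N0 : ℝ) ≤ m := by exact_mod_cast hm.1.le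
      gcongr
    refine (sum_le_sum h1).trans ?_
    rw [sum_const, nsmul_eq_mul, Nat.card_Ioc]
    have h2 : ((N - N0 : ℕ) : ℝ) ≤ N := by
      have : N - N0 ≤ N := Nat.sub_le _ _
      exact_mod_cast this
    gcongr
  set E : ℕ → ℝ := fun n => (n : ℝ) - q * ∑ m ∈ Icc 1 n, cf q m0 m with hE
  have hwpos : ∀ m, N0 ≤ m → 0 < Real.log ((l ^ 2 + m ^ 2 : ℕ) : ℝ) := by
    intro m hm
    apply Real.log_pos
    have : 1 < l ^ 2 + m ^ 2 := by nlinarith
    exact_mod_cast this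
  have s3 := abel E (wt l) N0 q (fun m hm => by
      unfold wt
      apply one_div_le_one_div_of_le (hwpos m hm)
      apply Real.log_le_log
      · have : 0 < l ^ 2 + m ^ 2 := by positivity
        exact_mod_cast this
      · have : l ^ 2 + m ^ 2 ≤ l ^ 2 + (m + 1) ^ 2 := by nlinarith
        exact_mod_cast this)
    (fun m hm => (wt_bd hl (by omega)).1) N hN (fun n _ _ => cf_sum q hq m0 n)
  have s4 : wt l N0 ≤ 1 := by
    unfold wt
    rw [div_le_one (hwpos N0 le_rfl), Real.le_log_iff_exp_le (by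
      have : 0 < l ^ 2 + N0 ^ 2 := by positivity
      exact_mod_cast this)]
    have h1 : (3 : ℝ) ≤ ((l ^ 2 + N0 ^ 2 : ℕ) : ℝ) := by
      have : 3 ≤ l ^ 2 + N0 ^ 2 := by nlinarith
      exact_mod_cast this
    have := Real.exp_one_lt_d9
    linarith
  have s5 : ∑ m ∈ Ioc N0 N, (E m - E (m - 1)) * wt l m =
      ∑ m ∈ Ioc N0 N, wt l m - q * ∑ m ∈ Ioc N0 N, cf q m0 m * wt l m := by
    rw [mul_sum, ← sum_sub_distrib]
    refine sum_congr rfl fun m hm => ?_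
    rw [mem_Ioc] at hm
    obtain ⟨k, rfl⟩ : ∃ k, m = k + 1 := ⟨m - 1, by omega⟩
    simp only [hE]
    rw [Nat.add_sub_cancel, sum_Icc_succ_top (by omega)]
    push_cast
    ring
  rw [s5] at s3
  have s6 : ∑ m ∈ Icc 1 N, cf q m0 m * wt l m = ∑ m ∈ Icc 1 N0, cf q m0 m * wt l m +
      ∑ m ∈ Ioc N0 N, cf q m0 m * wt l m := by
    rw [← sum_union]
    · congr 1
      ext m
      simp only [mem_Icc, mem_union, mem_Ioc]
      omega
    · rw [disjoint_left]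
      intro m hm hm'
      rw [mem_Icc] at hm
      rw [mem_Ioc] at hm'
      omega
  have s7 : 0 ≤ ∑ m ∈ Icc 1 N0, cf q m0 m * wt l m ∧ ∑ m ∈ Icc 1 N0, cf q m0 m * wt l m ≤ 2 * N0 := by
    constructor
    · apply sum_nonneg
      intro m hm
      rw [mem_Icc] at hm
      exact mul_nonneg (cf_bd q m0 m).1 (wt_bd hl hm.1).1
    · calc ∑ m ∈ Icc 1 N0, cf q m0 m * wt l m ≤ ∑ m ∈ Icc 1 N0, (2 : ℝ) := by
            apply sum_le_sum
            intro m hm
            rw [mem_Icc] at hm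
            have h1 := cz_bd q m0 m
            have h2 := wt_bd hl hm.1
            unfold cf
            nlinarith [h1.1, h1.2, h2.1, h2.2]
        _ = 2 * N0 := by
            rw [sum_const, nsmul_eq_mul, Nat.card_Icc]
            push_cast
            ring
  rw [s6]
  have hqR : (0 : ℝ) ≤ q := Nat.cast_nonneg q
  have s8 : 2 * (q : ℝ) * wt l N0 ≤ 2 * q := by nlinarith
  have s9 : (q : ℝ) * ∑ m ∈ Icc 1 N0, cf q m0 m * wt l m ≤ 2 * q * N0 := by nlinarith [s7.2]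
  have s10 : 0 ≤ (q : ℝ) * ∑ m ∈ Icc 1 N0, cf q m0 m * wt l m := mul_nonneg hqR s7.1
  rw [mul_add]
  rw [abs_le] at s1 s2 s3 ⊢
  constructor <;> linarith [s1.1, s1.2, s2.1, s2.2, s3.1, s3.2]

/-- the property of `l` which holds for almost all `l` -/
def Gd (q : ℕ) (m0 : ℤ) (ε : ℝ) (A : ℕ) (L : ℝ) (l : ℕ) : Prop :=
  sx q l ≤ 7 * Real.log L ∧ ∀ u : ℝ, L ^ (1 + ε) ≤ u → u ≤ L ^ (3 / 2 - ε) →
    |PP (cf q m0) l ⌊u⌋₊ - sx q l * ∫ t in (2 : ℝ)..u, 1 / (2 * Real.log t)| ≤ u / (Real.log L) ^ A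

open Classical in
/-- the sum of the difference between the indicator function of the primes and the expected density -/
noncomputable def Es (q : ℕ) (m0 : ℤ) (l N : ℕ) : ℝ :=
  ∑ m ∈ Icc 1 N, cf q m0 m * ((if (l ^ 2 + m ^ 2).Prime then 1 else 0) - q * sx q l * wt l m)

theorem Es_bound (q : ℕ) (hq : 1 ≤ q) (ε : ℝ) (A : ℕ) (hε : 0 < ε) : ∃ L₀ : ℝ, 3 ≤ L₀ ∧ ∀ L : ℝ, L₀ ≤ L →
    ∀ (m0 : ℤ) (l : ℕ), 1 ≤ l → (l : ℝ) ≤ L → Gd q m0 ε A L l → ∀ x : ℝ, L ^ (1 + 2 * ε) ≤ x → x ≤ L ^ (3 / 2 - ε) →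
      ∀ N : ℕ, (N : ℝ) ≤ x → |Es q m0 l N| ≤ 3 * x / (Real.log L) ^ A := by
  have hev := ((((ev_log_rpow (ε / 2) (by positivity) (A + 1) (7 * (8 + 6 * q))).and
    (eventually_ge_atTop (3 : ℝ))).and (ev_rpow_ge (ε / 2) 3 (by positivity))).and (ev_log_pow 1 1 one_pos 0)).and
    (ev_log_rpow ε hε (A + 1) (1 + 14 * q))
  obtain ⟨L₀, hL₀⟩ := eventually_atTop.1 hev
  refine ⟨max L₀ 3, le_max_right _ _, fun L hL m0 l hl1 hlL hg x hx1 hx2 N hNx => ?_⟩
  obtain ⟨⟨⟨⟨h1, hL3⟩, h2⟩, h3⟩, h4⟩ := hL₀ L ((le_max_left _ _).trans hL)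
  rw [zero_add, pow_one, one_mul] at h3
  obtain ⟨hs7, hu⟩ := hg
  set ℓ := Real.log L with hℓ
  have hL0 : 0 < L := by linarith
  have hL1 : 1 ≤ L := by linarith
  have hℓ0 : 0 < ℓ := by linarith
  have hs0 := sx_pos q hq (l : ℤ) (by omega)
  set s := sx q (l : ℤ) with hs
  have hx0 : 0 < x := lt_of_lt_of_le (by positivity) hx1
  have hq0 : (1 : ℝ) ≤ q := by exact_mod_cast hq
  have hEs : Es q m0 l N = PP (cf q m0) l N - s * (q * ∑ m ∈ Icc 1 N, cf q m0 m * wt l m) := by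
    unfold Es PP
    rw [mul_sum, mul_sum, ← sum_sub_distrib]
    refine sum_congr rfl fun m _ => ?_
    rw [← hs]
    ring
  by_cases hN : L ^ (1 + ε) ≤ (N : ℝ)
  · have k1 := hu (N : ℝ) hN (hNx.trans hx2)
    rw [Nat.floor_natCast] at k1
    set N0 : ℕ := ⌈L ^ (1 + ε / 2)⌉₊ with hN0
    have hP1 : L ≤ L ^ (1 + ε / 2) := by
      calc L = L ^ (1 : ℝ) := (Real.rpow_one L).symm
        _ ≤ _ := Real.rpow_le_rpow_of_exponent_le hL1 (by linarith)
    have hP2 : 3 * L ^ (1 + ε / 2) ≤ L ^ (1 + ε) := by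
      calc 3 * L ^ (1 + ε / 2) ≤ L ^ (ε / 2) * L ^ (1 + ε / 2) := mul_le_mul_of_nonneg_right h2 (by positivity)
        _ = L ^ (1 + ε) := by
          rw [← Real.rpow_add hL0]
          congr 1
          ring
    have hN0a : L ^ (1 + ε / 2) ≤ N0 := Nat.le_ceil _
    have hN0b : (N0 : ℝ) ≤ 2 * L ^ (1 + ε / 2) := by
      have := (Nat.ceil_lt_add_one (show 0 ≤ L ^ (1 + ε / 2) by positivity)).le
      rw [hN0]
      linarith
    have hN0c : 3 ≤ N0 := by
      have : (3 : ℝ) ≤ N0 := by linarith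
      exact_mod_cast this
    have hN0N : N0 ≤ N := by
      have : (N0 : ℝ) ≤ N := by linarith
      exact_mod_cast this
    have k2 := int_class q hq m0 l N0 N hl1 hN0c hN0N
    have k3 : (N : ℝ) * ((l : ℝ) / N0) ^ 2 ≤ x * L ^ (-ε) := by
      have e1 : (l : ℝ) / N0 ≤ L ^ (-(ε / 2)) := by
        rw [div_le_iff₀ (by linarith)]
        calc (l : ℝ) ≤ L := hlL
          _ = L ^ (-(ε / 2)) * L ^ (1 + ε / 2) := by
            rw [← Real.rpow_add hL0]
            rw [show -(ε / 2) + (1 + ε / 2) = 1 by ring, Real.rpow_one]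
          _ ≤ L ^ (-(ε / 2)) * N0 := mul_le_mul_of_nonneg_left hN0a (by positivity)
      calc (N : ℝ) * ((l : ℝ) / N0) ^ 2 ≤ x * (L ^ (-(ε / 2))) ^ 2 := by gcongr
        _ = x * L ^ (-ε) := by
          rw [← Real.rpow_natCast, ← Real.rpow_mul hL0.le]
          congr 2
          push_cast
          ring
    have k4 : (N0 + 2 : ℝ) + 2 * q + 2 * q * N0 ≤ (8 + 6 * q) * L ^ (1 + ε / 2) - L ^ (1 + ε / 2) := by
      have e1 : (1 : ℝ) ≤ L ^ (1 + ε / 2) := by linarith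
      nlinarith
    have k5 : L ^ (1 + ε / 2) * L ^ (ε / 2) ≤ x * 1 := by
      rw [← Real.rpow_add hL0, mul_one]
      refine le_trans ?_ hx1
      exact Real.rpow_le_rpow_of_exponent_le hL1 (by linarith)
    have k6 : s * ((N0 + 2 : ℝ) + N * ((l : ℝ) / N0) ^ 2 + 2 * q + 2 * q * N0) ≤ 2 * x / ℓ ^ A := by
      have e1 : (N0 + 2 : ℝ) + N * ((l : ℝ) / N0) ^ 2 + 2 * q + 2 * q * N0 ≤
          (8 + 6 * q) * L ^ (1 + ε / 2) + x * L ^ (-ε) := by
        have : 0 ≤ L ^ (1 + ε / 2) := by positivity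
        linarith
      have e2 : L ^ (1 + ε / 2) ≤ x * L ^ (-(ε / 2)) := by
        have : L ^ (1 + ε / 2) = L ^ (1 + ε) * L ^ (-(ε / 2)) := by
          rw [← Real.rpow_add hL0]
          congr 1
          ring
        rw [this]
        apply mul_le_mul_of_nonneg_right _ (by positivity)
        exact le_trans (Real.rpow_le_rpow_of_exponent_le hL1 (by linarith)) hx1
      have e3 : L ^ (-ε) ≤ L ^ (-(ε / 2)) := Real.rpow_le_rpow_of_exponent_le hL1 (by linarith)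
      have e4 : (8 + 6 * q) * L ^ (1 + ε / 2) + x * L ^ (-ε) ≤ 2 * ((8 + 6 * q) * (x * L ^ (-(ε / 2)))) := by
        have e5 : x * L ^ (-ε) ≤ (8 + 6 * q) * (x * L ^ (-(ε / 2))) := by
          have : x * L ^ (-ε) ≤ x * L ^ (-(ε / 2)) := mul_le_mul_of_nonneg_left e3 hx0.le
          have h9 : 0 ≤ x * L ^ (-(ε / 2)) := by positivity
          nlinarith
        have e6 : (8 + 6 * (q : ℝ)) * L ^ (1 + ε / 2) ≤ (8 + 6 * q) * (x * L ^ (-(ε / 2))) :=
          mul_le_mul_of_nonneg_left e2 (by positivity)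
        linarith
      rw [le_div_iff₀ (by positivity)]
      calc s * ((N0 + 2 : ℝ) + N * ((l : ℝ) / N0) ^ 2 + 2 * q + 2 * q * N0) * ℓ ^ A
          ≤ (7 * ℓ) * (2 * ((8 + 6 * q) * (x * L ^ (-(ε / 2))))) * ℓ ^ A := by
            apply mul_le_mul_of_nonneg_right _ (by positivity)
            apply mul_le_mul hs7 (e1.trans e4) _ (by positivity)
            positivity
        _ = 2 * x * (7 * (8 + 6 * q) * ℓ ^ (A + 1)) * L ^ (-(ε / 2)) := by ring
        _ ≤ 2 * x * L ^ (ε / 2) * L ^ (-(ε / 2)) := by gcongr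
        _ = 2 * x := by
            rw [mul_assoc, ← Real.rpow_add hL0, add_neg_cancel, Real.rpow_zero, mul_one]
    have k7 : (N : ℝ) / ℓ ^ A ≤ x / ℓ ^ A := by gcongr
    rw [hEs]
    set I := ∫ t in (2 : ℝ)..N, 1 / (2 * Real.log t)
    set T := (q : ℝ) * ∑ m ∈ Icc 1 N, cf q m0 m * wt l m
    have k8 : |s * (I - T)| ≤ 2 * x / ℓ ^ A := by
      rw [abs_mul, abs_of_pos hs0]
      exact (mul_le_mul_of_nonneg_left k2 hs0.le).trans k6
    have k9 : PP (cf q m0) l N - s * T = (PP (cf q m0) l N - s * I) + s * (I - T) := by ring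
    rw [k9]
    refine (abs_add_le _ _).trans ?_
    calc _ ≤ x / ℓ ^ A + 2 * x / ℓ ^ A := add_le_add (k1.trans k7) k8
      _ = 3 * x / ℓ ^ A := by ring
  · push Not at hN
    have k1 : |Es q m0 l N| ≤ N * (1 + 14 * q * ℓ) := by
      unfold Es
      refine (abs_sum_le_sum_abs _ _).trans ?_
      have e1 : ∀ m ∈ Icc 1 N, |cf q m0 m * ((if (l ^ 2 + m ^ 2).Prime then 1 else 0) - q * sx q l * wt l m)| ≤
          1 + 14 * q * ℓ := by
        intro m hm
        rw [mem_Icc] at hm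
        have h5 := cz_bd q m0 m
        have h6 := wt_bd hl1 hm.1
        rw [abs_mul, ← hs]
        have h7 : |cf q m0 m| ≤ 1 := by
          unfold cf
          rw [abs_of_nonneg h5.1]
          exact h5.2
        have h8 : q * s * wt l m ≤ 14 * q * ℓ := by
          calc q * s * wt l m ≤ q * (7 * ℓ) * 2 := by
                apply mul_le_mul _ h6.2 h6.1 (by positivity)
                exact mul_le_mul_of_nonneg_left hs7 (by positivity)
            _ = _ := by ring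
        have h9 : 0 ≤ q * s * wt l m := mul_nonneg (by positivity) h6.1
        have h10 : |(if (l ^ 2 + m ^ 2).Prime then (1 : ℝ) else 0) - q * s * wt l m| ≤ 1 + 14 * q * ℓ := by
          rw [abs_le]
          split_ifs <;> constructor <;> linarith
        calc |cf q m0 m| * |(if (l ^ 2 + m ^ 2).Prime then (1 : ℝ) else 0) - q * s * wt l m| ≤
              1 * (1 + 14 * q * ℓ) := mul_le_mul h7 h10 (abs_nonneg _) (by norm_num)
          _ = _ := one_mul _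
      refine (sum_le_sum e1).trans ?_
      rw [sum_const, nsmul_eq_mul, Nat.card_Icc]
      push_cast
      simp
    have k2 : (N : ℝ) * (1 + 14 * q * ℓ) ≤ x / ℓ ^ A := by
      rw [le_div_iff₀ (by positivity)]
      have e1 : 1 + 14 * (q : ℝ) * ℓ ≤ (1 + 14 * q) * ℓ := by nlinarith
      calc (N : ℝ) * (1 + 14 * q * ℓ) * ℓ ^ A ≤ L ^ (1 + ε) * ((1 + 14 * q) * ℓ) * ℓ ^ A := by gcongr
        _ = L ^ (1 + ε) * ((1 + 14 * q) * ℓ ^ (A + 1)) := by ring
        _ ≤ L ^ (1 + ε) * L ^ ε := by gcongr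
        _ = L ^ (1 + 2 * ε) := by
            rw [← Real.rpow_add hL0]
            congr 1
            ring
        _ ≤ x := hx1
    have k3 : 0 ≤ x / ℓ ^ A := by positivity
    calc |Es q m0 l N| ≤ x / ℓ ^ A := k1.trans k2
      _ ≤ 3 * x / ℓ ^ A := by
        rw [mul_div_assoc]
        linarith

end Pool.Agent.L7h18.SD
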