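import Pool.Agent.L7h18.SDb

/-!
# Primes `(q m + r)² + l²` in windows
-/

set_option autoImplicit false

namespace Pool.Agent.L7h18.SD

open Finset Filter Topology
open Pool.Agent.N782.GN

open Classical in
/-- the difference between the indicator function of the primes and the expected density -/
noncomputable def Wz (q l : ℕ) (m : ℤ) : ℝ :=
  (if ((l : ℤ) ^ 2 + m ^ 2).toNat.Prime then 1 else 0) -
    q * sx q l * (1 / Real.log ((((l : ℤ) ^ 2 + m ^ 2 : ℤ)) : ℝ))

theorem Wz_neg (q l : ℕ) (m : ℤ) : Wz q l (-m) = Wz q l m := by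
  unfold Wz
  rw [show (-m) ^ 2 = m ^ 2 by ring]

theorem Wz_nat (q l m : ℕ) : Wz q l (m : ℤ) =
    (if (l ^ 2 + m ^ 2).Prime then 1 else 0) - q * sx q l * wt l m := by
  classical
  unfold Wz wt
  have h1 : ((l : ℤ) ^ 2 + (m : ℤ) ^ 2) = ((l ^ 2 + m ^ 2 : ℕ) : ℤ) := by push_cast; ring
  rw [h1, Int.toNat_natCast, Int.cast_natCast]

theorem Wz_zero (q l : ℕ) (ℓ : ℝ) (hℓ : 0 ≤ ℓ) (hl : 1 ≤ l) (hs : 0 ≤ sx q l) (hs7 : sx q l ≤ 7 * ℓ) :
    |Wz q l 0| ≤ 1 + 7 * q * ℓ := by
  classical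
  have h1 : ((l : ℤ) ^ 2 + (0 : ℤ) ^ 2) = ((l ^ 2 : ℕ) : ℤ) := by push_cast; ring
  have h2 : 0 ≤ 1 / Real.log ((l ^ 2 : ℕ) : ℝ) ∧ 1 / Real.log ((l ^ 2 : ℕ) : ℝ) ≤ 1 := by
    rcases Nat.lt_or_ge l 2 with h | h
    · have : l = 1 := by omega
      subst this
      norm_num
    · have h3 : (4 : ℝ) ≤ ((l ^ 2 : ℕ) : ℝ) := by
        have : 4 ≤ l ^ 2 := by nlinarith
        exact_mod_cast this
      have h4 : 1 ≤ Real.log ((l ^ 2 : ℕ) : ℝ) := by
        rw [Real.le_log_iff_exp_le (by linarith)]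
        have := Real.exp_one_lt_d9
        linarith
      constructor
      · positivity
      · rw [div_le_one (by linarith)]
        exact h4
  unfold Wz
  rw [h1, Int.toNat_natCast, Int.cast_natCast]
  set w := 1 / Real.log ((l ^ 2 : ℕ) : ℝ)
  have hq0 : (0 : ℝ) ≤ q := Nat.cast_nonneg q
  have h5 : (q : ℝ) * sx q l * w ≤ 7 * q * ℓ := by
    calc (q : ℝ) * sx q l * w ≤ q * (7 * ℓ) * 1 := by
          apply mul_le_mul _ h2.2 h2.1 (by positivity)
          exact mul_le_mul_of_nonneg_left hs7 hq0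
      _ = _ := by ring
  have h6 : 0 ≤ (q : ℝ) * sx q l * w := mul_nonneg (mul_nonneg hq0 hs) h2.1
  rw [abs_le]
  split_ifs <;> constructor <;> linarith

/-- the class function -/
noncomputable def hz (q l : ℕ) (r m : ℤ) : ℝ := if (q : ℤ) ∣ m - r then Wz q l m else 0

theorem Es_eq (q l : ℕ) (r : ℤ) (N : ℕ) :
    2 * Es q r l N = ∑ m ∈ Icc (1 : ℤ) N, (hz q l r m + hz q l r (-m)) := by
  rw [sum_int_nat]
  unfold Es
  rw [mul_sum]
  refine sum_congr rfl fun m _ => ?_
  unfold hz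
  rw [Wz_neg, Wz_nat]
  unfold cf cz
  split_ifs <;> ring

theorem sum_hz_symm (q l : ℕ) (r : ℤ) (N : ℕ) :
    ∑ m ∈ Icc (-(N : ℤ)) N, hz q l r m = hz q l r 0 + 2 * Es q r l N := by
  rw [sum_symm (N : ℤ) (by omega), Es_eq]

theorem hz_neg (q l : ℕ) (r m : ℤ) (h : (q : ℤ) ∣ 2 * r) : hz q l r (-m) = hz q l r m := by
  unfold hz
  rw [Wz_neg]
  have : (q : ℤ) ∣ -m - r ↔ (q : ℤ) ∣ m - r := by
    constructor
    · intro h1
      have h2 := dvd_neg.2 (dvd_add h1 h)
      rwa [show -(-m - r + 2 * r) = m - r by ring] at h2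
    · intro h1
      have h2 := dvd_neg.2 (dvd_add h1 h)
      rwa [show -(m - r + 2 * r) = -m - r by ring] at h2
  simp only [this]

theorem Es_eq' (q l : ℕ) (r : ℤ) (N : ℕ) (h : (q : ℤ) ∣ 2 * r) :
    Es q r l N = ∑ m ∈ Icc (1 : ℤ) N, hz q l r m := by
  have h1 := Es_eq q l r N
  have h2 : ∑ m ∈ Icc (1 : ℤ) N, (hz q l r m + hz q l r (-m)) = 2 * ∑ m ∈ Icc (1 : ℤ) N, hz q l r m := by
    rw [mul_sum]
    refine sum_congr rfl fun m _ => ?_
    rw [hz_neg q l r m h]
    ring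
  linarith

/-- the signed sum from `0` to `y` -/
noncomputable def Tz (q l : ℕ) (r y : ℤ) : ℝ :=
  ∑ m ∈ Ioc 0 y, hz q l r m - ∑ m ∈ Ioc y 0, hz q l r m

theorem Tz_diff (q l : ℕ) (r α β : ℤ) (h : α ≤ β) :
    ∑ m ∈ Ioc α β, hz q l r m = Tz q l r β - Tz q l r α := by
  unfold Tz
  have cons : ∀ a b c : ℤ, a ≤ b → b ≤ c → ∑ m ∈ Ioc a c, hz q l r m =
      ∑ m ∈ Ioc a b, hz q l r m + ∑ m ∈ Ioc b c, hz q l r m := by
    intro a b c h1 h2
    rw [← Finset.Ioc_union_Ioc_eq_Ioc h1 h2, sum_union]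
    exact Finset.Ioc_disjoint_Ioc_of_le le_rfl
  rcases le_total 0 α with h1 | h1
  · have h2 := cons 0 α β h1 h
    rw [Finset.Ioc_eq_empty_of_le h1, Finset.Ioc_eq_empty_of_le (h1.trans h), sum_empty]
    linarith
  · rcases le_total 0 β with h2 | h2
    · have h3 := cons α 0 β h1 h2
      rw [Finset.Ioc_eq_empty_of_le h2, Finset.Ioc_eq_empty_of_le h1, sum_empty]
      linarith
    · have h3 := cons α β 0 h h2
      rw [Finset.Ioc_eq_empty_of_le h1, Finset.Ioc_eq_empty_of_le h2, sum_empty]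
      linarith

theorem Tz_bound (q l : ℕ) (r : ℤ) (h : (q : ℤ) ∣ 2 * r) (x B : ℝ) (hB : 0 ≤ B)
    (hE : ∀ N : ℕ, (N : ℝ) ≤ x → |Es q r l N| ≤ B) (y : ℤ) (h1 : -x - 1 ≤ y) (h2 : (y : ℝ) ≤ x) :
    |Tz q l r y| ≤ B + |Wz q l 0| := by
  have hz0 : |hz q l r 0| ≤ |Wz q l 0| := by
    unfold hz
    split_ifs
    · exact le_rfl
    · rw [abs_zero]
      exact abs_nonneg _
  unfold Tz
  rcases le_or_gt 0 y with hy | hy
  · obtain ⟨N, rfl⟩ := Int.eq_ofNat_of_zero_le hy
    rw [Finset.Ioc_eq_empty_of_le hy, sum_empty, sub_zero]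
    have e1 : Ioc (0 : ℤ) N = Icc 1 (N : ℤ) := by
      ext m
      simp only [mem_Ioc, mem_Icc]
      omega
    rw [e1, ← Es_eq' q l r N h]
    have := hE N (by exact_mod_cast h2)
    have := abs_nonneg (Wz q l 0)
    linarith
  · obtain ⟨N, hN⟩ := Int.eq_ofNat_of_zero_le (show 0 ≤ -y - 1 by omega)
    rw [Finset.Ioc_eq_empty_of_le hy.le, sum_empty, zero_sub, abs_neg]
    have e1 : Ioc y (0 : ℤ) = insert 0 ((Icc 1 (N : ℤ)).image (fun m => -m)) := by
      ext m
      simp only [mem_Ioc, mem_insert, mem_image, mem_Icc]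
      constructor
      · rintro ⟨h3, h4⟩
        rcases eq_or_lt_of_le h4 with h5 | h5
        · exact Or.inl h5
        · exact Or.inr ⟨-m, ⟨by omega, by omega⟩, by omega⟩
      · rintro (h3 | ⟨k, ⟨h3, h4⟩, h5⟩)
        · omega
        · omega
    rw [e1, sum_insert, sum_image (by intro a _ b _ hab; simpa using hab)]
    · have e2 : ∑ m ∈ Icc 1 (N : ℤ), hz q l r (-m) = Es q r l N := by
        rw [Es_eq' q l r N h]
        refine sum_congr rfl fun m _ => hz_neg q l r m h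
      rw [e2]
      have h5 : (N : ℝ) ≤ x := by
        have : ((N : ℤ) : ℝ) = -(y : ℝ) - 1 := by
          have h6 : (N : ℤ) = -y - 1 := hN.symm
          rw [h6]
          push_cast
          ring
        rw [Int.cast_natCast] at this
        linarith
      have h6 := hE N h5
      calc |hz q l r 0 + Es q r l N| ≤ |hz q l r 0| + |Es q r l N| := abs_add_le _ _
        _ ≤ B + |Wz q l 0| := by linarith
    · rw [mem_image]
      rintro ⟨k, hk, hk'⟩
      rw [mem_Icc] at hk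
      omega

/-- **the bound for windows** -/
theorem window_bound (q l : ℕ) (hq : 1 ≤ q) (r : ℤ) (x B : ℝ) (hx : 0 ≤ x) (hB : 0 ≤ B)
    (hE : ∀ N : ℕ, (N : ℝ) ≤ x → |Es q r l N| ≤ B) (u v : ℤ)
    (hw : ∀ m ∈ Ioc u v, |((q * m + r : ℤ) : ℝ)| ≤ x)
    (hcase : (q : ℤ) ∣ 2 * r ∨ ∃ y : ℝ, ∀ m : ℤ, m ∈ Ioc u v ↔ |((q * m + r : ℤ) : ℝ)| ≤ y) :
    |∑ m ∈ Ioc u v, Wz q l (q * m + r)| ≤ 2 * B + 2 * |Wz q l 0| := by
  have hq0 : (0 : ℤ) < q := by exact_mod_cast hq
  have hW := abs_nonneg (Wz q l 0)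
  rcases le_or_gt v u with huv | huv
  · rw [Finset.Ioc_eq_empty_of_le huv, sum_empty, abs_zero]
    linarith
  rcases hcase with h2r | ⟨y, hy⟩
  · have h1 := hw (u + 1) (by rw [mem_Ioc]; omega)
    have h2 := hw v (by rw [mem_Ioc]; omega)
    rw [abs_le] at h1 h2
    set α : ℤ := q * (u + 1) + r - 1 with hα
    set β : ℤ := q * v + r with hβ
    have hαβ : α ≤ β := by
      have : (q : ℤ) * (u + 1) ≤ q * v := mul_le_mul_of_nonneg_left (by omega) hq0.le
      omega
    have e1 : ∑ m ∈ Ioc u v, Wz q l (q * m + r) = ∑ m ∈ Ioc α β, hz q l r m := by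
      unfold hz
      rw [← sum_filter]
      apply sum_nbij (fun m => q * m + r)
      · intro m hm
        rw [mem_Ioc] at hm
        rw [mem_filter, mem_Ioc]
        have a1 : (q : ℤ) * (u + 1) ≤ q * m := mul_le_mul_of_nonneg_left (by omega) hq0.le
        have a2 : (q : ℤ) * m ≤ q * v := mul_le_mul_of_nonneg_left hm.2 hq0.le
        refine ⟨⟨by omega, by omega⟩, ⟨m, by ring⟩⟩
      · intro a _ b _ hab
        have : (q : ℤ) * a = q * b := by
          simp only at hab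
          omega
        exact mul_left_cancel₀ hq0.ne' this
      · intro k hk
        rw [coe_filter, Set.mem_ofPred_eq, mem_Ioc] at hk
        obtain ⟨⟨k1, k2⟩, m, hm⟩ := hk
        refine ⟨m, ?_, by simp only; omega⟩
        rw [coe_Ioc, Set.mem_Ioc]
        constructor
        · by_contra hc
          push Not at hc
          have : (q : ℤ) * m ≤ q * u := mul_le_mul_of_nonneg_left hc hq0.le
          have : (q : ℤ) * (u + 1) = q * u + q := by ring
          omega
        · by_contra hc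
          push Not at hc
          have : (q : ℤ) * (v + 1) ≤ q * m := mul_le_mul_of_nonneg_left (by omega) hq0.le
          have : (q : ℤ) * (v + 1) = q * v + q := by ring
          omega
      · intro m _
        rfl
    rw [e1, Tz_diff q l r α β hαβ]
    have b1 := Tz_bound q l r h2r x B hB hE β (by rw [hβ]; linarith [h2.1]) (by rw [hβ]; exact h2.2)
    have b2 := Tz_bound q l r h2r x B hB hE α (by
        rw [hα]
        push_cast
        push_cast at h1
        linarith [h1.1]) (by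
        rw [hα]
        push_cast
        push_cast at h1
        linarith [h1.2])
    calc |Tz q l r β - Tz q l r α| ≤ |Tz q l r β| + |Tz q l r α| := abs_sub _ _
      _ ≤ _ := by linarith
  · set y' := min x y with hy'
    have hy1 : ∀ m : ℤ, m ∈ Ioc u v ↔ |((q * m + r : ℤ) : ℝ)| ≤ y' := by
      intro m
      constructor
      · intro hm
        exact le_min (hw m hm) ((hy m).1 hm)
      · intro hm
        exact (hy m).2 (hm.trans (min_le_right _ _))
    have hy0 : 0 ≤ y' := (abs_nonneg _).trans ((hy1 v).1 (by rw [mem_Ioc]; omega))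
    set N : ℕ := ⌊y'⌋₊ with hN
    have hNx : (N : ℝ) ≤ x := (Nat.floor_le hy0).trans (min_le_left _ _)
    have e1 : ∑ m ∈ Ioc u v, Wz q l (q * m + r) = ∑ m ∈ Icc (-(N : ℤ)) N, hz q l r m := by
      unfold hz
      rw [← sum_filter]
      have key : ∀ k : ℤ, k ∈ Icc (-(N : ℤ)) N ↔ |((k : ℤ) : ℝ)| ≤ y' := by
        intro k
        rw [mem_Icc, ← abs_le]
        have : |((k : ℤ) : ℝ)| = ((k.natAbs : ℕ) : ℝ) := by rw [Nat.cast_natAbs, Int.cast_abs]
        rw [this, ← Nat.le_floor_iff hy0, Int.abs_eq_natAbs, Nat.cast_le]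
      apply sum_nbij (fun m => q * m + r)
      · intro m hm
        rw [mem_filter, key]
        exact ⟨(hy1 m).1 hm, ⟨m, by ring⟩⟩
      · intro a _ b _ hab
        have : (q : ℤ) * a = q * b := by
          simp only at hab
          omega
        exact mul_left_cancel₀ hq0.ne' this
      · intro k hk
        rw [coe_filter, Set.mem_ofPred_eq, key] at hk
        obtain ⟨k1, m, hm⟩ := hk
        refine ⟨m, ?_, by simp only; omega⟩
        rw [mem_coe, hy1, ← hm, sub_add_cancel]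
        exact k1
      · intro m _
        rfl
    rw [e1, sum_hz_symm]
    have b1 := hE N hNx
    have hz0 : |hz q l r 0| ≤ |Wz q l 0| := by
      unfold hz
      split_ifs
      · exact le_rfl
      · rw [abs_zero]
        exact abs_nonneg _
    calc |hz q l r 0 + 2 * Es q r l N| ≤ |hz q l r 0| + |2 * Es q r l N| := abs_add_le _ _
      _ ≤ |Wz q l 0| + 2 * B := by
          rw [abs_mul, abs_of_pos (show (0 : ℝ) < 2 by norm_num)]
          linarith
      _ ≤ _ := by linarith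

end Pool.Agent.L7h18.SD
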