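import Pool.Agent.L7h18.SDc

/-!
# Primes `(q m + r)² + l²`: all classes together, and the constants
-/

set_option autoImplicit false

namespace Pool.Agent.L7h18.SD

open Finset Filter Topology
open Pool.Agent.N782.GN

theorem cf_congr (q : ℕ) (r m0 : ℤ) (h : (q : ℤ) ∣ r - m0) : cf q r = cf q m0 := by
  funext m
  unfold cf cz
  have h1 : (q : ℤ) ∣ (m : ℤ) - r ↔ (q : ℤ) ∣ (m : ℤ) - m0 := by
    constructor
    · intro h2
      have := dvd_add h2 h
      rwa [show (m : ℤ) - r + (r - m0) = m - m0 by ring] at this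
    · intro h2
      have := dvd_sub h2 h
      rwa [show (m : ℤ) - m0 - (r - m0) = m - r by ring] at this
  have h2 : (q : ℤ) ∣ -(m : ℤ) - r ↔ (q : ℤ) ∣ -(m : ℤ) - m0 := by
    constructor
    · intro h2
      have := dvd_add h2 h
      rwa [show -(m : ℤ) - r + (r - m0) = -m - m0 by ring] at this
    · intro h2
      have := dvd_sub h2 h
      rwa [show -(m : ℤ) - m0 - (r - m0) = -m - r by ring] at this
  simp only [h1, h2]

theorem Gd_congr {q : ℕ} {r m0 : ℤ} (h : (q : ℤ) ∣ r - m0) {ε : ℝ} {A : ℕ} {L : ℝ} {l : ℕ} (hg : Gd q m0 ε A L l) :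
    Gd q r ε A L l := by
  unfold Gd at hg ⊢
  rw [cf_congr q r m0 h]
  exact hg

theorem cop_congr {q : ℕ} {l r l0 m0 : ℤ} (h1 : (q : ℤ) ∣ l - l0) (h2 : (q : ℤ) ∣ r - m0)
    (hc : IsCoprime (⟨l, r⟩ : ZI) ((q : ℕ) : ZI)) : IsCoprime (⟨l0, m0⟩ : ZI) ((q : ℕ) : ZI) := by
  obtain ⟨c, hc'⟩ := (dvd_iff q ⟨l, r⟩ ⟨l0, m0⟩).2 ⟨h1, h2⟩
  have h3 : (⟨l0, m0⟩ : ZI) = ⟨l, r⟩ + ((q : ℕ) : ZI) * (-c) := by
    rw [mul_neg, ← hc']
    ring
  rw [h3]
  exact IsCoprime.add_mul_left_left hc (-c)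

open Classical in
/-- all classes modulo all `q ≤ Q` -/
theorem all_aa (Q : ℕ) (ε : ℝ) (A : ℕ) (hε : 0 < ε) (hε4 : ε ≤ 1 / 4) : ∃ L₀ : ℝ, 3 ≤ L₀ ∧ ∀ L : ℝ, L₀ ≤ L →
    ∃ Bad ⊆ Icc 1 ⌊L⌋₊, (Bad.card : ℝ) ≤ L / Real.log L ^ A ∧ ∀ l ∈ Icc 1 ⌊L⌋₊, l ∉ Bad → ∀ q ∈ Icc 1 Q, ∀ r : ℤ,
      IsCoprime (⟨(l : ℤ), r⟩ : ZI) ((q : ℕ) : ZI) → Gd q r ε A L l := by
  set T : Finset (ℕ × ℕ × ℕ) := Icc 1 Q ×ˢ range Q ×ˢ range Q with hT
  set F : ℝ → ℕ × ℕ × ℕ → Finset ℕ := fun L t => (Icc 1 ⌊L⌋₊).filter (fun l : ℕ =>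
    1 ≤ t.1 ∧ IsCoprime (⟨(t.2.1 : ℤ), (t.2.2 : ℤ)⟩ : ZI) ((t.1 : ℕ) : ZI) ∧ (t.1 : ℤ) ∣ (l : ℤ) - (t.2.1 : ℤ) ∧
      ¬ Gd t.1 (t.2.2 : ℤ) ε (A + 1) L l) with hF
  have h1 : ∀ t : ℕ × ℕ × ℕ, ∀ᶠ L : ℝ in atTop, ((F L t).card : ℝ) ≤ L / Real.log L ^ (A + 1) := by
    intro t
    by_cases ht : 1 ≤ t.1 ∧ IsCoprime (⟨(t.2.1 : ℤ), (t.2.2 : ℤ)⟩ : ZI) ((t.1 : ℕ) : ZI)
    · obtain ⟨L₀, hL₀, h⟩ := class_aa t.1 ht.1 t.2.1 t.2.2 ht.2 ε (A + 1) hε hε4
      filter_upwards [eventually_ge_atTop L₀] with L hL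
      refine le_trans ?_ (h L hL)
      rw [Nat.cast_le]
      apply card_le_card
      intro l hl
      simp only [hF, mem_filter] at hl ⊢
      exact ⟨hl.1, hl.2.2.2.1, hl.2.2.2.2⟩
    · filter_upwards [eventually_ge_atTop (3 : ℝ)] with L hL
      have : F L t = ∅ := by
        simp only [hF]
        rw [filter_eq_empty_iff]
        intro l _ hl
        exact ht ⟨hl.1, hl.2.1⟩
      rw [this, card_empty]
      have : 0 ≤ Real.log L := Real.log_nonneg (by linarith)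
      push_cast
      positivity
  have h2 : ∀ᶠ L : ℝ in atTop, ∀ t ∈ T, ((F L t).card : ℝ) ≤ L / Real.log L ^ (A + 1) :=
    (Filter.eventually_all_finset T).2 fun t _ => h1 t
  obtain ⟨L₀, hL₀⟩ := eventually_atTop.1 (((h2.and (eventually_ge_atTop (3 : ℝ))).and
    (ev_log_pow 1 (T.card : ℝ) one_pos 0)).and (ev_log_pow 1 1 one_pos 0))
  refine ⟨max L₀ 3, le_max_right _ _, fun L hL => ?_⟩
  obtain ⟨⟨⟨h3, hL3⟩, h4⟩, h5⟩ := hL₀ L ((le_max_left _ _).trans hL)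
  rw [zero_add, pow_one, one_mul] at h4 h5
  have hlog : 0 < Real.log L := by linarith
  refine ⟨T.biUnion (F L), ?_, ?_, ?_⟩
  · intro l hl
    rw [mem_biUnion] at hl
    obtain ⟨t, _, ht⟩ := hl
    exact (mem_filter.1 ht).1
  · calc ((T.biUnion (F L)).card : ℝ) ≤ ∑ t ∈ T, ((F L t).card : ℝ) := by exact_mod_cast card_biUnion_le
      _ ≤ ∑ t ∈ T, L / Real.log L ^ (A + 1) := sum_le_sum h3
      _ = T.card * (L / Real.log L ^ (A + 1)) := by rw [sum_const, nsmul_eq_mul]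
      _ ≤ Real.log L * (L / Real.log L ^ (A + 1)) := by
          apply mul_le_mul_of_nonneg_right h4
          positivity
      _ = L / Real.log L ^ A := by
          rw [pow_succ]
          field_simp
  · intro l hl hlB q hq r hc
    rw [mem_Icc] at hq
    have hq0 : (0 : ℤ) < q := by exact_mod_cast hq.1
    obtain ⟨l0, hl0⟩ := Int.eq_ofNat_of_zero_le (Int.emod_nonneg (l : ℤ) hq0.ne')
    obtain ⟨m0, hm0⟩ := Int.eq_ofNat_of_zero_le (Int.emod_nonneg r hq0.ne')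
    have a1 : (q : ℤ) ∣ (l : ℤ) - l0 := by
      rw [← hl0]
      exact Int.dvd_self_sub_emod
    have a2 : (q : ℤ) ∣ r - m0 := by
      rw [← hm0]
      exact Int.dvd_self_sub_emod
    have b1 : l0 < q := by
      have := Int.emod_lt_of_pos (l : ℤ) hq0
      omega
    have b2 : m0 < q := by
      have := Int.emod_lt_of_pos r hq0
      omega
    have hc0 := cop_congr a1 a2 hc
    by_contra hg
    apply hlB
    rw [mem_biUnion]
    refine ⟨(q, l0, m0), ?_, ?_⟩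
    · rw [hT, mem_product, mem_product, mem_Icc, mem_range, mem_range]
      exact ⟨hq, lt_of_lt_of_le b1 hq.2, lt_of_lt_of_le b2 hq.2⟩
    · simp only [hF, mem_filter]
      refine ⟨hl, hq.1, hc0, a1, fun hg' => hg ?_⟩
      have hg2 : Gd q r ε (A + 1) L l := Gd_congr a2 hg'
      unfold Gd at hg2 ⊢
      refine ⟨hg2.1, fun u hu1 hu2 => (hg2.2 u hu1 hu2).trans ?_⟩
      apply div_le_div_of_nonneg_left _ (by positivity) (pow_le_pow_right₀ h5 (by omega))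
      exact (Real.rpow_nonneg (by linarith) _).trans hu1

/-- the factors of the primes dividing `q` -/
noncomputable def Pq (q : ℕ) (l : ℤ) : ℝ := ∏ p ∈ q.primeFactors.filter (fun p : ℕ => p ≠ 2 ∧ ¬ (p : ℤ) ∣ l),
    (1 - ((ZMod.χ₄ (p : ZMod 4) : ℤ) : ℝ) / ((p : ℝ) - 1))

theorem Pq_pos (q : ℕ) (l : ℤ) : 0 < Pq q l := by
  apply prod_pos'
  intro p hp
  rw [mem_filter] at hp
  have h3 := (Nat.prime_of_mem_primeFactors hp.1).two_le
  have h4 := hp.2.1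
  omega

theorem gq_eq' (q : ℕ) (l : ℤ) : gq q l = (q : ℝ) / (Nat.totient q : ℝ) / Pq q l := rfl

/-- `q / φ(q)` as a product -/
theorem tot_prod (q : ℕ) (hq : 1 ≤ q) : (q : ℝ) / (Nat.totient q : ℝ) = ∏ p ∈ q.primeFactors, (p : ℝ) / (p - 1) := by
  have h1 := Nat.totient_mul_prod_primeFactors q
  have hφ : (0 : ℝ) < (Nat.totient q : ℝ) := by exact_mod_cast Nat.totient_pos.2 hq
  rw [prod_div_distrib]
  have h2 : ∏ p ∈ q.primeFactors, ((p : ℝ) - 1) = ((∏ p ∈ q.primeFactors, (p - 1) : ℕ) : ℝ) := by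
    rw [Nat.cast_prod]
    refine prod_congr rfl fun p hp => ?_
    have := (Nat.prime_of_mem_primeFactors hp).one_le
    rw [Nat.cast_sub this]
    simp
  have h3 : 0 < ((∏ p ∈ q.primeFactors, (p - 1) : ℕ) : ℝ) := by
    have : 0 < ∏ p ∈ q.primeFactors, (p - 1) := prod_pos fun p hp => by
      have := (Nat.prime_of_mem_primeFactors hp).two_le
      omega
    exact_mod_cast this
  rw [h2, div_eq_div_iff hφ.ne' h3.ne', ← Nat.cast_prod]
  have h4 : q * ∏ p ∈ q.primeFactors, (p - 1) = (∏ p ∈ q.primeFactors, p) * q.totient := by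
    rw [← h1]
    ring
  exact_mod_cast h4

theorem fac_le {p : ℕ} (hp : p.Prime) : 1 - ((ZMod.χ₄ (p : ZMod 4) : ℤ) : ℝ) / ((p : ℝ) - 1) ≤ (p : ℝ) / (p - 1) := by
  have h2 : (2 : ℝ) ≤ p := by exact_mod_cast hp.two_le
  have h1 : -1 ≤ ((ZMod.χ₄ (p : ZMod 4) : ℤ) : ℝ) := by
    have : ∀ x : ZMod 4, -1 ≤ ZMod.χ₄ x := by decide
    exact_mod_cast this _
  have h3 : (p : ℝ) / (p - 1) = 1 - (-1) / ((p : ℝ) - 1) := by
    have : (p : ℝ) - 1 ≠ 0 := by linarith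
    field_simp
    ring
  rw [h3]
  have h4 : (-1) / ((p : ℝ) - 1) ≤ ((ZMod.χ₄ (p : ZMod 4) : ℤ) : ℝ) / ((p : ℝ) - 1) :=
    div_le_div_of_nonneg_right h1 (by linarith)
  linarith

/-- a product over some of the primes dividing `n` is at most `n / φ(n)` -/
theorem sub_prod_le (n : ℕ) (hn : 1 ≤ n) (S : Finset ℕ) (hS : S ⊆ n.primeFactors) (h2 : ∀ p ∈ S, p ≠ 2) :
    ∏ p ∈ S, (1 - ((ZMod.χ₄ (p : ZMod 4) : ℤ) : ℝ) / ((p : ℝ) - 1)) ≤ (n : ℝ) / (Nat.totient n : ℝ) := by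
  rw [tot_prod n hn]
  calc ∏ p ∈ S, (1 - ((ZMod.χ₄ (p : ZMod 4) : ℤ) : ℝ) / ((p : ℝ) - 1)) ≤ ∏ p ∈ S, (p : ℝ) / (p - 1) := by
        apply Finset.prod_le_prod
        · intro p hp
          have := prod_pos' {p} (by
            intro p' hp'
            rw [mem_singleton] at hp'
            subst hp'
            have a1 := (Nat.prime_of_mem_primeFactors (hS hp)).two_le
            have a2 := h2 _ hp
            omega)
          rw [prod_singleton] at this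
          exact this.le
        · intro p hp
          exact fac_le (Nat.prime_of_mem_primeFactors (hS hp))
    _ ≤ ∏ p ∈ n.primeFactors, (p : ℝ) / (p - 1) := by
        rw [← prod_sdiff hS]
        have h1 : ∀ p ∈ n.primeFactors, (1 : ℝ) ≤ (p : ℝ) / (p - 1) := by
          intro p hp
          have h2 : (2 : ℝ) ≤ p := by exact_mod_cast (Nat.prime_of_mem_primeFactors hp).two_le
          rw [le_div_iff₀ (by linarith)]
          linarith
        have h3 : (1 : ℝ) ≤ ∏ p ∈ n.primeFactors \ S, (p : ℝ) / (p - 1) :=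
          prod_induction _ (fun x : ℝ => 1 ≤ x) (fun a b ha hb => one_le_mul_of_one_le_of_one_le ha hb) le_rfl
            fun p hp => h1 p (mem_sdiff.1 hp).1
        have h4 : (0 : ℝ) ≤ ∏ p ∈ S, (p : ℝ) / (p - 1) :=
          prod_nonneg fun p hp => le_trans zero_le_one (h1 p (hS hp))
        exact le_mul_of_one_le_left h4 h3

/-- the lower bound for the singular series -/
theorem SS_ge (l : ℕ) (hl : 1 ≤ l) : SS 1 * (Nat.totient l : ℝ) ≤ SS l * l := by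
  have hl0 : (0 : ℝ) < l := by exact_mod_cast hl
  have hφ : (0 : ℝ) < (Nat.totient l : ℝ) := by exact_mod_cast Nat.totient_pos.2 hl
  have h1 := (c_ssl 1 one_ne_zero).1
  have h2 := (c_ssl (l : ℤ) (by exact_mod_cast (by omega : l ≠ 0))).1
  have key : ∀ᶠ z : ℕ in atTop, pp 1 z ≤ pp l z * ((l : ℝ) / (Nat.totient l : ℝ)) := by
    filter_upwards [eventually_ge_atTop l] with z hz
    have e1 : (Icc 3 z).filter (fun p : ℕ => p.Prime ∧ ¬ (p : ℤ) ∣ 1) =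
        (Icc 3 z).filter (fun p : ℕ => p.Prime ∧ ¬ (p : ℤ) ∣ (l : ℤ)) ∪ l.primeFactors.filter (fun p => p ≠ 2) := by
      ext p
      simp only [mem_filter, mem_Icc, mem_union, Nat.mem_primeFactors, Int.natCast_dvd_natCast]
      constructor
      · rintro ⟨⟨h3, hz'⟩, hp, -⟩
        by_cases hd : p ∣ l
        · exact Or.inr ⟨⟨hp, hd, by omega⟩, by omega⟩
        · exact Or.inl ⟨⟨h3, hz'⟩, hp, hd⟩
      · have hone : ∀ p : ℕ, p.Prime → ¬ (p : ℤ) ∣ 1 := by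
          intro p hp hd
          have := Int.natAbs_dvd_natAbs.2 hd
          rw [Int.natAbs_natCast, Int.natAbs_one, Nat.dvd_one] at this
          exact hp.one_lt.ne' this
        rintro (⟨⟨h3, hz'⟩, hp, -⟩ | ⟨⟨hp, hd, -⟩, h2⟩)
        · exact ⟨⟨h3, hz'⟩, hp, hone p hp⟩
        · have := hp.two_le
          exact ⟨⟨by omega, (Nat.le_of_dvd (by omega) hd).trans hz⟩, hp, hone p hp⟩
    have hdis : Disjoint ((Icc 3 z).filter (fun p : ℕ => p.Prime ∧ ¬ (p : ℤ) ∣ (l : ℤ)))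
        (l.primeFactors.filter (fun p => p ≠ 2)) := by
      rw [disjoint_left]
      intro p hp hp'
      rw [mem_filter] at hp hp'
      exact hp.2.2 (Int.natCast_dvd_natCast.2 (Nat.dvd_of_mem_primeFactors hp'.1))
    have e2 : pp 1 z = pp l z * ∏ p ∈ l.primeFactors.filter (fun p => p ≠ 2),
        (1 - ((ZMod.χ₄ (p : ZMod 4) : ℤ) : ℝ) / ((p : ℝ) - 1)) := by
      unfold pp
      rw [e1, prod_union hdis]
    rw [e2]
    apply mul_le_mul_of_nonneg_left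
    · exact sub_prod_le l hl _ (filter_subset _ _) fun p hp => (mem_filter.1 hp).2
    · unfold pp
      apply (prod_pos' _ _).le
      intro p hp
      rw [mem_filter, mem_Icc] at hp
      exact hp.1.1
  have h3 := le_of_tendsto_of_tendsto h1 (h2.mul_const ((l : ℝ) / (Nat.totient l : ℝ))) key
  rw [← mul_div_assoc, le_div_iff₀ hφ] at h3
  exact h3

theorem gq_ge (q : ℕ) (hq : 1 ≤ q) (l : ℤ) : 1 ≤ gq q l := by
  rw [gq_eq', le_div_iff₀ (Pq_pos q l), one_mul]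
  unfold Pq
  exact sub_prod_le q hq _ (filter_subset _ _) fun p hp => (mem_filter.1 hp).2.1

end Pool.Agent.L7h18.SD
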