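import Pool.Agent.N469.PT.Ws

set_option autoImplicit false

/-! Prime tuples with all the shifts near random integers: a union bound over the neighbours. -/

namespace Pool.Agent.L7h18.TN
open Finset
open Pool.Agent.N469.PT (OneLaw ws_final)
open Pool.Agent.W93.TD (HLs)

lemma hls_mono {s : ℕ} {ε : ℝ} {U U' N : ℕ} (hN : 3 ≤ N) (h : U ≤ U') (a : Fin s → ℕ) (ha : HLs ε U' N a) : HLs ε U N a := by
  obtain ⟨S, h1, h2, h3⟩ := ha
  refine ⟨S, h1, h2.trans ?_, h3⟩
  have hl : 1 ≤ Real.log N := by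
    rw [Real.le_log_iff_exp_le (by positivity)]
    have : (3 : ℝ) ≤ N := by exact_mod_cast hN
    linarith [Real.exp_one_lt_d9]
  apply div_le_div_of_nonneg_left (Nat.cast_nonneg _) (by positivity)
  exact pow_le_pow_right₀ hl h

open Classical in
/-- the prime tuples conjecture with a high probability, for all the neighbours of the random vector -/
theorem ws_near (s : ℕ) (hs : 1 ≤ s) (L : Fin s → ℕ → Finset ℕ → (ℕ → ℝ) → Prop) (κκ : Fin s → ℕ) (hκ : ∀ i, 1 ≤ κκ i)
    (Bc U W : ℕ) (ε : ℝ) (hε : 0 < ε) (h : ∀ i, OneLaw (L i) (κκ i) (Bc + 1) (2 * (U + (W + 1) * s) + 6 + s + 2)) :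
    ∃ N₀ : ℕ, ∀ N, N₀ ≤ N → ∀ (Ω : Fin s → Finset ℕ) (p : Fin s → ℕ → ℝ), (∀ i, L i N (Ω i) (p i)) →
    ∀ c : Fin s → ℕ, (∀ i, c i ≤ Bc * N) →
    ∑ m ∈ Fintype.piFinset Ω, (if ¬ ∀ a : Fin s → ℕ, (∀ i, c i + κκ i * m i ≤ a i ∧
        (a i : ℝ) ≤ ((c i + κκ i * m i : ℕ) : ℝ) + Real.log N ^ W) → HLs ε U N a then ∏ i, p i (m i) else 0) ≤
      1 / Real.log N ^ U := by
  obtain ⟨N₁, h1⟩ := ws_final s hs L κκ hκ (Bc + 1) (U + (W + 1) * s) ε hε h
  -- nonnegativity of the distributions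
  have hpos : ∀ i, ∃ N₂ : ℕ, ∀ N, N₂ ≤ N → ∀ (Ω : Finset ℕ) (p : ℕ → ℝ), L i N Ω p → ∀ v ∈ Ω, 0 ≤ p v := by
    intro i
    obtain ⟨A, B0, hE⟩ := h i
    obtain ⟨N₂, h2⟩ := hE 0
    exact ⟨N₂, fun N hN Ω p hL => (h2 N hN Ω p hL 0 (Nat.zero_le _)).1⟩
  choose N₂ h2 using hpos
  obtain ⟨N₃, h3⟩ : ∃ N₃ : ℕ, ∀ N : ℕ, N₃ ≤ N → Real.log N ^ W + 1 ≤ N ∧ 2 ≤ Real.log N := by
    have e0 := (Real.isLittleO_pow_log_id_atTop (n := W)).comp_tendsto (tendsto_natCast_atTop_atTop (R := ℝ))
    have e1 := e0.bound (by norm_num : (0 : ℝ) < 1 / 2)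
    have e2 : ∀ᶠ N : ℕ in Filter.atTop, 2 ≤ Real.log N :=
      (Real.tendsto_log_atTop.comp (tendsto_natCast_atTop_atTop (R := ℝ))).eventually_ge_atTop 2
    obtain ⟨N₃, hN₃⟩ := Filter.eventually_atTop.1 (e1.and e2)
    refine ⟨N₃ + 2, fun N hN => ?_⟩
    obtain ⟨q1, q2⟩ := hN₃ N (by omega)
    refine ⟨?_, q2⟩
    simp only [Function.comp_apply, id_eq] at q1
    rw [Real.norm_of_nonneg (by positivity), Real.norm_of_nonneg (by positivity)] at q1
    have q3 : (2 : ℝ) ≤ N := by exact_mod_cast (by omega : 2 ≤ N)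
    linarith
  refine ⟨N₁ + ∑ i, N₂ i + N₃ + 3, fun N hN Ω p hL c hc => ?_⟩
  have hN2 : ∀ i, N₂ i ≤ N := fun i => by
    have := single_le_sum (f := N₂) (fun _ _ => Nat.zero_le _) (mem_univ i)
    omega
  obtain ⟨hlogW, hlog⟩ := h3 N (by omega)
  obtain ⟨T, hT⟩ : ∃ T : ℕ, T = ⌊Real.log N ^ W⌋₊ := ⟨_, rfl⟩
  have hlW0 : 0 ≤ Real.log (N : ℝ) ^ W := by positivity
  have hTr : (T : ℝ) ≤ Real.log N ^ W := by rw [hT]; exact Nat.floor_le hlW0
  have hTN : T ≤ N := by
    have : (T : ℝ) ≤ N := by linarith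
    exact_mod_cast this
  have hp0 : ∀ m ∈ Fintype.piFinset Ω, 0 ≤ ∏ i, p i (m i) := by
    intro m hm
    rw [Fintype.mem_piFinset] at hm
    exact prod_nonneg fun i _ => h2 i N (hN2 i) (Ω i) (p i) (hL i) _ (hm i)
  -- one vector of shifts for each neighbour
  have hone : ∀ t ∈ Fintype.piFinset (fun _ : Fin s => range (T + 1)),
      ∑ m ∈ Fintype.piFinset Ω, (if ¬ HLs ε (U + (W + 1) * s) N (fun i => c i + t i + κκ i * m i) then ∏ i, p i (m i) else 0) ≤
        1 / Real.log N ^ (U + (W + 1) * s) := by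
    intro t ht
    rw [Fintype.mem_piFinset] at ht
    refine h1 N (by omega) Ω p hL (fun i => c i + t i) (fun i => ?_)
    have q1 := hc i
    have q2 := mem_range.1 (ht i)
    have q3 : (Bc + 1) * N = Bc * N + N := by ring
    rw [q3]
    exact Nat.add_le_add q1 (by omega)
  calc ∑ m ∈ Fintype.piFinset Ω, (if ¬ ∀ a : Fin s → ℕ, (∀ i, c i + κκ i * m i ≤ a i ∧
        (a i : ℝ) ≤ ((c i + κκ i * m i : ℕ) : ℝ) + Real.log N ^ W) → HLs ε U N a then ∏ i, p i (m i) else 0)
      ≤ ∑ m ∈ Fintype.piFinset Ω, ∑ t ∈ Fintype.piFinset (fun _ : Fin s => range (T + 1)),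
        (if ¬ HLs ε (U + (W + 1) * s) N (fun i => c i + t i + κκ i * m i) then ∏ i, p i (m i) else 0) := by
        apply sum_le_sum
        intro m hm
        have hnn : ∀ t ∈ Fintype.piFinset (fun _ : Fin s => range (T + 1)),
            0 ≤ (if ¬ HLs ε (U + (W + 1) * s) N (fun i => c i + t i + κκ i * m i) then ∏ i, p i (m i) else 0) := by
          intro t _
          split_ifs
          · exact le_rfl
          · exact hp0 m hm
        by_cases hQ : ∀ a : Fin s → ℕ, (∀ i, c i + κκ i * m i ≤ a i ∧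
          (a i : ℝ) ≤ ((c i + κκ i * m i : ℕ) : ℝ) + Real.log N ^ W) → HLs ε U N a
        · rw [if_neg (not_not.2 hQ)]
          exact sum_nonneg hnn
        · rw [if_pos hQ]
          push Not at hQ
          obtain ⟨a, ha, hbad⟩ := hQ
          obtain ⟨t, ht⟩ : ∃ t : Fin s → ℕ, t = fun i => a i - (c i + κκ i * m i) := ⟨_, rfl⟩
          have hat : ∀ i, a i = c i + t i + κκ i * m i := fun i => by
            have := (ha i).1
            rw [ht]
            simp only
            omega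
          have htm : t ∈ Fintype.piFinset (fun _ : Fin s => range (T + 1)) := by
            rw [Fintype.mem_piFinset]
            intro i
            rw [mem_range, Nat.lt_succ_iff, hT]
            apply Nat.le_floor
            have q := (ha i).2
            rw [hat i] at q
            push_cast at q
            linarith
          refine le_trans ?_ (single_le_sum hnn htm)
          rw [if_pos]
          intro hH
          apply hbad
          have e : a = fun i => c i + t i + κκ i * m i := funext hat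
          rw [e]
          exact hls_mono (by omega) (by omega) _ hH
    _ = ∑ t ∈ Fintype.piFinset (fun _ : Fin s => range (T + 1)), ∑ m ∈ Fintype.piFinset Ω,
        (if ¬ HLs ε (U + (W + 1) * s) N (fun i => c i + t i + κκ i * m i) then ∏ i, p i (m i) else 0) := sum_comm
    _ ≤ ∑ t ∈ Fintype.piFinset (fun _ : Fin s => range (T + 1)), 1 / Real.log N ^ (U + (W + 1) * s) := sum_le_sum hone
    _ = ((T : ℝ) + 1) ^ s * (1 / Real.log N ^ (U + (W + 1) * s)) := by
        rw [sum_const, Fintype.card_piFinset_const, card_range, nsmul_eq_mul]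
        push_cast
        rfl
    _ ≤ (Real.log N ^ (W + 1)) ^ s * (1 / Real.log N ^ (U + (W + 1) * s)) := by
        apply mul_le_mul_of_nonneg_right _ (by positivity)
        apply pow_le_pow_left₀ (by positivity)
        have q1 : (1 : ℝ) ≤ Real.log N ^ W := one_le_pow₀ (by linarith)
        rw [pow_succ]
        nlinarith
    _ = 1 / Real.log N ^ U := by
        rw [← pow_mul, pow_add]
        have q1 : (0 : ℝ) < Real.log N := by linarith
        field_simp

end Pool.Agent.L7h18.TN
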